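import Pool.Agent.R79.LP.Asym

set_option autoImplicit false
open N6ef48c04

namespace Pool.Agent.Results.MP_8941bc_co.SublinearInLongestPath

/-!
# The cop number is sublinear in the length of the longest path (MP_8941bc_co, full answer to Q1)

Q1 asks for `ε > 0` such that for every `p ≥ 1` some connected graph whose longest path has `p`
vertices has cop number at least `ε p`. There is no such `ε`: every connected graph all of whose
paths have at most `p` vertices has cop number `O(p log log p / log p)`. The number of vertices of the
graph does not enter.

Proof.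
(1) Let a connected graph have diameter at most `D` and let `A` be a set of `w` vertices. If a ball of
radius `r` around a vertex `h` contains a subset `B` of `A` and every ball of radius `r - 1` contains
at most `k` elements of `B`, then `2 r k` cops with base `h` guard `B`: in each round, with the robber
at `x`, a group of `k` cops leaves `h` for the elements of `B` at distance at most `r - 1` from `x`;
they arrive after `r` moves, as early as the robber, and go back. One removes first, for
`r = 1, 2, …, D - 1`, the balls of radius `r` that contain more than `b ^ r` of the remaining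
elements of `A`, and guards them in this way, with at most `2 r b ^ (r - 1)` cops for more than `b ^ r`
elements; the remaining elements are guarded from one base. So about `2 D w / b + 2 D b ^ (D - 1)`
cops guard `A`, whatever the number of vertices of the graph.
(2) Two teams, which guard the vertices of a path of a search tree in turn, win in a graph of
diameter at most `D` whose paths have at most `w` vertices.
(3) Let the robber be confined to a connected set `Z` of vertices, next to the end of a path `L`. Take
`o` in `Z` next to this end. While the robber stays in the ball of radius `2 ℓ` around `o` in `Z`, the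
teams of (2) play in this ball. When he leaves it, one cop walks from `o` along the first `ℓ` edges
of a shortest path from `o` to the robber in `Z`, and then guards them (with the position
`min (dist o x) ℓ` on this path when the robber is at `x`). So one more cop confines the robber to
a smaller set, which is next to the end of a path with `ℓ + 1` more vertices. This happens at most
`p / (ℓ + 1)` times.
-/

/-- The longest path of `G` has `p` vertices. -/
def LongestPath {V : Type} (G : SimpleGraph V) (p : ℕ) : Prop :=
  (∃ (u v : V) (w : G.Walk u v), w.IsPath ∧ w.length + 1 = p) ∧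
    ∀ (u v : V) (w : G.Walk u v), w.IsPath → w.length + 1 ≤ p

/-- (1) Let `G` be a finite connected graph all of whose paths have at most `p` vertices. Then
`c(G) ≤ p / (ℓ + 1) + 1 + 2 (8 ℓ p / b + 2 (4 ℓ + 1) b ^ (4 ℓ))` for all `ℓ` and all `b ≥ 1`
(quotients rounded down), and `c(G) ≤ 19 p log log p / log p` if `p ≥ e ^ 222`.
(2) For every `ε > 0` there is `p₀` such that `c(G) < ε p` for all `p ≥ p₀` and all such `G`.
(3) The negation of Q1. -/
theorem result :
    (∀ (V : Type) [Fintype V] (G : SimpleGraph V), G.Connected → ∀ p : ℕ,
      (∀ (u v : V) (w : G.Walk u v), w.IsPath → w.length + 1 ≤ p) →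
      (∀ ℓ b : ℕ, 1 ≤ b → copNumber G ≤ p / (ℓ + 1) + 1 +
        2 * (8 * ℓ * p / b + 2 * (4 * ℓ + 1) * b ^ (4 * ℓ))) ∧
      (Real.exp 222 ≤ p →
        (copNumber G : ℝ) ≤ 19 * p * Real.log (Real.log p) / Real.log p)) ∧
    (∀ ε : ℝ, 0 < ε → ∃ p₀ : ℕ, ∀ p : ℕ, p₀ ≤ p → ∀ (V : Type) [Fintype V] (G : SimpleGraph V),
      G.Connected → (∀ (u v : V) (w : G.Walk u v), w.IsPath → w.length + 1 ≤ p) →
      (copNumber G : ℝ) < ε * p) ∧
    ¬ ∃ ε : ℝ, 0 < ε ∧ ∀ p : ℕ, 1 ≤ p → ∃ (V : Type) (_ : Fintype V) (G : SimpleGraph V),
      G.Connected ∧ LongestPath G p ∧ ε * p ≤ copNumber G := by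
  refine ⟨fun V _ G hG p hp => ⟨fun ℓ b hb => Pool.Agent.R79.LP.bound G hG p hp ℓ b hb,
    fun h => Pool.Agent.R79.LP.loglog G hG p hp h⟩, Pool.Agent.R79.LP.small, ?_⟩
  rintro ⟨ε, hε, h⟩
  obtain ⟨p₀, hp₀⟩ := Pool.Agent.R79.LP.small ε hε
  obtain ⟨V, hV, G, hG, hL, hc⟩ := h (p₀ + 1) (by omega)
  exact absurd (hp₀ (p₀ + 1) (by omega) V G hG hL.2) (not_lt.2 hc)

end Pool.Agent.Results.MP_8941bc_co.SublinearInLongestPath
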